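import Pool.Agent.E8helper2.PS.Stm

set_option autoImplicit false
open MeasureTheory Filter Topology Complex
namespace Pool.Agent.E8helper22.PS
open Pool.Agent.E8helper2.PS

theorem rv_fin (a : ℕ → ℂ) (N : ℕ) (w : ℂ) : Phi (rv a N) w =
    ∑ j ∈ Finset.range (N + 1), rv a N j * Complex.exp (Complex.I * j * w) := by
  unfold Phi
  apply tsum_eq_sum
  intro j hj
  rw [Finset.mem_range, not_lt] at hj
  have : rv a N j = 0 := by
    unfold rv
    rw [if_neg (by omega)]
  rw [this, zero_mul]

theorem rv_cont (a : ℕ → ℂ) (N : ℕ) : Continuous (Phi (rv a N)) := by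
  have : Phi (rv a N) = fun w => ∑ j ∈ Finset.range (N + 1), rv a N j * Complex.exp (Complex.I * j * w) :=
    funext (rv_fin a N)
  rw [this]
  fun_prop

theorem summ (a : ℕ → ℂ) (M : ℝ) (ha : ∀ n, ‖a n‖ ≤ M) (w : ℂ) (hw : 0 < w.im) :
    Summable fun j : ℕ => a j * Complex.exp (Complex.I * j * w) := by
  have hM : 0 ≤ M := (norm_nonneg _).trans (ha 0)
  refine Summable.of_norm_bounded (g := fun j : ℕ => M * Real.exp (-w.im) ^ j)
    ((summable_geometric_of_lt_one (Real.exp_pos _).le (by
      have := Real.exp_lt_exp.2 (show -w.im < 0 by linarith)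
      rwa [Real.exp_zero] at this)).mul_left M) fun j => ?_
  rw [norm_mul]
  refine mul_le_mul (ha j) (le_of_eq ?_) (norm_nonneg _) hM
  rw [Complex.norm_exp, ← Real.exp_nat_mul]
  congr 1
  simp [Complex.mul_re]

theorem ident (a : ℕ → ℂ) (M : ℝ) (ha : ∀ n, ‖a n‖ ≤ M) (N : ℕ) (w : ℂ) (hw : 0 < w.im) :
    Phi (sh a N) w + Phi (rv a N) (-w) = Complex.exp (-(Complex.I * N * w)) * Phi a w := by
  have hs := summ a M ha w hw
  have h1 : Phi a w = ∑ n ∈ Finset.range N, a n * Complex.exp (Complex.I * n * w) +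
      ∑' j : ℕ, a (j + N) * Complex.exp (Complex.I * ((j + N : ℕ) : ℂ) * w) :=
    (hs.sum_add_tsum_nat_add N).symm
  have h2 : Phi (sh a N) w = Complex.exp (-(Complex.I * N * w)) *
      ∑' j : ℕ, a (j + N) * Complex.exp (Complex.I * ((j + N : ℕ) : ℂ) * w) := by
    unfold Phi sh
    rw [← tsum_mul_left]
    refine tsum_congr fun j => ?_
    rw [mul_left_comm, ← Complex.exp_add, add_comm N j]
    congr 2
    push_cast
    ring
  have h3 : Phi (rv a N) (-w) = Complex.exp (-(Complex.I * N * w)) *
      ∑ n ∈ Finset.range N, a n * Complex.exp (Complex.I * n * w) := by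
    rw [rv_fin, Finset.sum_range_succ', Finset.mul_sum,
      ← Finset.sum_range_reflect (fun n => Complex.exp (-(Complex.I * N * w)) *
        (a n * Complex.exp (Complex.I * n * w))) N]
    have h0 : rv a N 0 = 0 := by
      unfold rv
      rw [if_neg (by omega)]
    rw [h0, zero_mul, add_zero]
    refine Finset.sum_congr rfl fun j hj => ?_
    rw [Finset.mem_range] at hj
    have h4 : rv a N (j + 1) = a (N - 1 - j) := by
      unfold rv
      rw [if_pos (by omega)]
      congr 1
      omega
    have h5 : ((N - 1 - j : ℕ) : ℂ) = (N : ℂ) - 1 - j := by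
      have : N - 1 - j + (1 + j) = N := by omega
      have h6 : ((N - 1 - j : ℕ) : ℂ) + (1 + j) = N := by exact_mod_cast this
      linear_combination h6
    rw [h4, h5, mul_left_comm, ← Complex.exp_add]
    congr 2
    push_cast
    ring
  rw [h1, h2, h3]
  ring

end Pool.Agent.E8helper22.PS
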