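import Pool.Agent.E8helper22.PS.Rect
import Pool.Agent.E8helper20.PS.RL
import Pool.Agent.E8helper22.PS.Ident

set_option autoImplicit false
open MeasureTheory Filter Topology Complex Set Interval
namespace Pool.Agent.E8helper22.PS
open Pool.Agent.E8helper2.PS

theorem KK_neg (x₁ x₂ q : ℝ) (w : ℂ) : KK (-x₂) (-x₁) q (-w) = KK x₁ x₂ q w := by
  unfold KK kk
  push_cast
  have h1 : -w - -(x₂ : ℂ) = x₂ - w := by ring
  have h2 : -(x₁ : ℂ) - -w = w - x₁ := by ring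
  rw [h1, h2, mul_comm]

theorem t_LONG (h0 : S_WIN) (h1 : S_ABEL) (h3 : S_CONT) : S_LONG := by
  intro a M e₁ e₂ ha w1 w2 he ⟨u, hu, hu2⟩ ε hε
  have hM : 0 ≤ M := (norm_nonneg _).trans (ha 0)
  refine ⟨min 1 (ε / (200 * M + 1)), lt_min one_pos (by positivity), fun τ hτ hτ1 => ?_⟩
  have hτ1' : τ ≤ 1 := (hτ1.trans_le (min_le_left _ _)).le
  have hτε : 68 * M * τ ≤ ε / 2 := by
    have h5 : τ < ε / (200 * M + 1) := hτ1.trans_le (min_le_right _ _)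
    rw [lt_div_iff₀ (by positivity)] at h5
    nlinarith [mul_nonneg hM hτ.le]
  -- the choice of q
  obtain ⟨q, ⟨hq1, hq2⟩, hq0⟩ : ∃ q : ℝ, (2 * (2 * (2 * M / τ * q ^ 4) +
      4 * q / τ * (2 * M / τ) * (e₂ - e₁)) < ε / 4 ∧ 2 * q ^ 4 < e₂ - e₁) ∧ 0 < q := by
    have c1 : Continuous fun q : ℝ => 2 * (2 * (2 * M / τ * q ^ 4) +
      4 * q / τ * (2 * M / τ) * (e₂ - e₁)) := by fun_prop
    have c2 : Continuous fun q : ℝ => 2 * q ^ 4 := by fun_prop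
    have t1 : ∀ᶠ q in 𝓝[>] (0 : ℝ), 2 * (2 * (2 * M / τ * q ^ 4) +
      4 * q / τ * (2 * M / τ) * (e₂ - e₁)) < ε / 4 := by
      refine (c1.tendsto 0).mono_left nhdsWithin_le_nhds |>.eventually_lt_const ?_
      norm_num
      positivity
    have t2 : ∀ᶠ q in 𝓝[>] (0 : ℝ), 2 * q ^ 4 < e₂ - e₁ := by
      refine (c2.tendsto 0).mono_left nhdsWithin_le_nhds |>.eventually_lt_const ?_
      norm_num
      exact he
    exact ((t1.and t2).and self_mem_nhdsWithin).exists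
  have hq4 : 0 < q ^ 4 := by positivity
  obtain ⟨x₁, hx₁⟩ : ∃ x, x = e₁ + q ^ 4 := ⟨_, rfl⟩
  obtain ⟨x₂, hx₂⟩ : ∃ x, x = e₂ - q ^ 4 := ⟨_, rfl⟩
  have hx : x₁ ≤ x₂ := by rw [hx₁, hx₂]; linarith
  have hrl := Pool.Agent.E8helper20.PS.rl (fun θ => KK x₁ x₂ q θ * u θ) x₁ x₂ hx
  have hrl2 := (tendsto_zero_iff_norm_tendsto_zero.1 hrl).eventually_lt_const
    (show (0 : ℝ) < ε / 4 by positivity)
  obtain ⟨N₀, hN₀⟩ := eventually_atTop.1 hrl2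
  refine ⟨N₀, fun N hN => ?_⟩
  have hmain := hN₀ N hN
  obtain ⟨wsh1, wrv1⟩ := h0 a M e₁ w1 N
  obtain ⟨wsh2, wrv2⟩ := h0 a M e₂ w2 N
  have bsh : ∀ n, ‖sh a N n‖ ≤ M := fun n => ha _
  have brv : ∀ n, ‖rv a N n‖ ≤ M := fun n => by
    unfold rv
    split_ifs
    · exact ha _
    · rw [norm_zero]
      exact hM
  have hrvc := rv_cont a N
  have hid := ident a M ha N
  -- the upper side
  obtain ⟨F, hFdef⟩ : ∃ F : ℂ → ℂ, F = fun w => Complex.exp (-(Complex.I * N * w)) * u w -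
    Phi (rv a N) (-w) := ⟨_, rfl⟩
  have hF : ∀ w : ℂ, 0 < w.im → F w = Phi (sh a N) w := fun w hw => by
    rw [hFdef]
    show Complex.exp (-(Complex.I * N * w)) * u w - Phi (rv a N) (-w) = _
    rw [hu2 w hw, ← hid w hw]
    ring
  have hsub : ([[x₁, x₂]] ×ℂ [[0, τ]]) ⊆ {w : ℂ | 0 < w.im ∨ (w.im = 0 ∧ e₁ < w.re ∧ w.re < e₂)} := by
    intro w hw
    have h5 := hw.1
    have h6 := hw.2
    rw [Set.mem_preimage, uIcc_of_le hx] at h5
    rw [Set.mem_preimage, uIcc_of_le hτ.le] at h6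
    rcases h6.1.lt_or_eq with h7 | h7
    · exact Or.inl h7
    · refine Or.inr ⟨h7.symm, ?_, ?_⟩
      · have := h5.1
        rw [hx₁] at this
        linarith
      · have := h5.2
        rw [hx₂] at this
        linarith
  have hFc : ContinuousOn F ([[x₁, x₂]] ×ℂ [[0, τ]]) := by
    rw [hFdef]
    refine ContinuousOn.sub (ContinuousOn.mul (Continuous.continuousOn (by fun_prop))
      (hu.mono hsub)) (Continuous.continuousOn (hrvc.comp continuous_neg))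
  have sA := side h1 h3 (sh a N) M e₁ e₂ q τ x₁ x₂ bsh wsh1 wsh2 hq0 hx₁ hx₂ hx hτ hτ1' F hF hFc
  have sB := side h1 h3 (rv a N) M (-e₂) (-e₁) q τ (-x₂) (-x₁) brv wrv2 wrv1 hq0
    (by rw [hx₂]; ring) (by rw [hx₁]; ring) (by linarith) hτ hτ1' (Phi (rv a N))
    (fun w _ => rfl) hrvc.continuousOn
  -- the integral of `Dl`
  have hD : (∫ θ in e₁..e₂, Dl a N τ θ) = (∫ θ in e₁..e₂, Phi (sh a N) ((θ : ℂ) + τ * I)) +
      ∫ θ in (-e₂)..(-e₁), Phi (rv a N) ((θ : ℂ) + τ * I) := by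
    rw [← intervalIntegral.integral_comp_neg (fun θ : ℝ => Phi (rv a N) ((θ : ℂ) + τ * I)),
      ← intervalIntegral.integral_add]
    · refine intervalIntegral.integral_congr fun θ _ => ?_
      show Phi (sh a N) ((θ : ℂ) + τ * Complex.I) + Phi (rv a N) (-(θ : ℂ) + τ * Complex.I) =
        Phi (sh a N) ((θ : ℂ) + τ * I) + Phi (rv a N) (((-θ : ℝ) : ℂ) + τ * I)
      rw [Complex.ofReal_neg]
    · exact (hline h3 _ M τ bsh hτ).intervalIntegrable _ _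
    · exact ((hline h3 _ M τ brv hτ).comp continuous_neg).intervalIntegrable _ _
  -- the main term
  have hKc : ContinuousOn (fun θ : ℝ => KK x₁ x₂ q (θ : ℂ)) [[x₁, x₂]] := by
    intro t ht
    rw [uIcc_of_le hx] at ht
    have h5 : ContinuousAt (KK x₁ x₂ q) (t : ℂ) :=
      (KK_facts hq0 (w := (t : ℂ)) (by simpa using ht.1) (by simpa using ht.2)).2.1.continuousAt
    exact (ContinuousAt.comp (f := fun t : ℝ => (t : ℂ)) h5
      Complex.continuous_ofReal.continuousAt).continuousWithinAt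
  have hFr : ContinuousOn (fun θ : ℝ => F (θ : ℂ)) [[x₁, x₂]] := by
    refine hFc.comp Complex.continuous_ofReal.continuousOn fun t ht => ?_
    refine ⟨?_, ?_⟩
    · show (t : ℂ).re ∈ [[x₁, x₂]]
      rwa [Complex.ofReal_re]
    · show (t : ℂ).im ∈ [[0, τ]]
      rw [Complex.ofReal_im]
      exact left_mem_uIcc
  have hm : (∫ θ in x₁..x₂, KK x₁ x₂ q θ * F θ) +
      (∫ θ in (-x₂)..(-x₁), KK (-x₂) (-x₁) q θ * Phi (rv a N) θ) =
      ∫ θ in x₁..x₂, Complex.exp (-(Complex.I * N * (θ : ℂ))) * (KK x₁ x₂ q θ * u θ) := by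
    rw [← intervalIntegral.integral_comp_neg
      (fun θ : ℝ => KK (-x₂) (-x₁) q θ * Phi (rv a N) θ), ← intervalIntegral.integral_add]
    · refine intervalIntegral.integral_congr fun θ _ => ?_
      show KK x₁ x₂ q θ * F θ + KK (-x₂) (-x₁) q ((-θ : ℝ) : ℂ) * Phi (rv a N) ((-θ : ℝ) : ℂ) = _
      rw [Complex.ofReal_neg, KK_neg, hFdef]
      ring
    · exact (hKc.mul hFr).intervalIntegrable
    · apply ContinuousOn.intervalIntegrable
      have : ∀ θ : ℝ, KK (-x₂) (-x₁) q ((-θ : ℝ) : ℂ) * Phi (rv a N) ((-θ : ℝ) : ℂ) =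
          KK x₁ x₂ q θ * Phi (rv a N) (-(θ : ℂ)) := fun θ => by
        rw [Complex.ofReal_neg, KK_neg]
      simp_rw [this]
      exact hKc.mul (hrvc.comp (continuous_neg.comp Complex.continuous_ofReal)).continuousOn
  rw [hD]
  rw [← hm] at hmain
  have eB : -e₁ - -e₂ = e₂ - e₁ := by ring
  rw [eB] at sB
  obtain ⟨P1, hP1⟩ : ∃ P, P = ∫ θ in e₁..e₂, Phi (sh a N) ((θ : ℂ) + τ * I) := ⟨_, rfl⟩
  obtain ⟨P2, hP2⟩ : ∃ P, P = ∫ θ in (-e₂)..(-e₁), Phi (rv a N) ((θ : ℂ) + τ * I) := ⟨_, rfl⟩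
  obtain ⟨Q1, hQ1⟩ : ∃ P, P = ∫ θ in x₁..x₂, KK x₁ x₂ q θ * F θ := ⟨_, rfl⟩
  obtain ⟨Q2, hQ2⟩ : ∃ P, P = ∫ θ in (-x₂)..(-x₁), KK (-x₂) (-x₁) q θ * Phi (rv a N) θ := ⟨_, rfl⟩
  rw [← hP1, ← hQ1] at sA
  rw [← hP2, ← hQ2] at sB
  rw [← hQ1, ← hQ2] at hmain
  rw [← hP1, ← hP2]
  have e : P1 + P2 = (P1 - Q1) + (P2 - Q2) + (Q1 + Q2) := by ring
  rw [e]
  calc ‖(P1 - Q1) + (P2 - Q2) + (Q1 + Q2)‖ ≤ ‖P1 - Q1‖ + ‖P2 - Q2‖ + ‖Q1 + Q2‖ :=
        (norm_add_le _ _).trans (by gcongr; exact norm_add_le _ _)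
    _ ≤ ε := by linarith

end Pool.Agent.E8helper22.PS
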