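import Pool.Agent.E8helper22.PS.Side

set_option autoImplicit false
open MeasureTheory Filter Topology Complex Set Interval
namespace Pool.Agent.E8helper22.PS
open Pool.Agent.E8helper2.PS

theorem hline (h3 : S_CONT) (c : ℕ → ℂ) (M t : ℝ) (hc : ∀ n, ‖c n‖ ≤ M) (ht : 0 < t) :
    Continuous fun x : ℝ => Phi c ((x : ℂ) + t * I) := by
  obtain ⟨g1, _, _⟩ := h3 c M hc
  have h : ContinuousOn (Phi c) {w : ℂ | 0 < w.im} := g1.continuousOn
  rw [← continuousOn_univ]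
  refine h.comp (Continuous.continuousOn (by fun_prop)) fun x _ => ?_
  show 0 < ((x : ℂ) + t * I).im
  simp [ht]

theorem side (h1 : S_ABEL) (h3 : S_CONT) (c : ℕ → ℂ) (M e₁ e₂ q τ x₁ x₂ : ℝ)
    (hc : ∀ n, ‖c n‖ ≤ M) (w1 : Win c M e₁) (w2 : Win c M e₂) (hq : 0 < q)
    (hx₁ : x₁ = e₁ + q ^ 4) (hx₂ : x₂ = e₂ - q ^ 4) (hx : x₁ ≤ x₂)
    (hτ : 0 < τ) (hτ1 : τ ≤ 1) (F : ℂ → ℂ) (hF : ∀ w : ℂ, 0 < w.im → F w = Phi c w)
    (hFc : ContinuousOn F ([[x₁, x₂]] ×ℂ [[0, τ]])) :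
    ‖(∫ θ in e₁..e₂, Phi c ((θ : ℂ) + τ * I)) - ∫ θ in x₁..x₂, KK x₁ x₂ q θ * F θ‖ ≤
      34 * M * τ + 2 * (2 * M / τ * q ^ 4) + 4 * q / τ * (2 * M / τ) * (e₂ - e₁) := by
  have hM : 0 ≤ M := (norm_nonneg _).trans (hc 0)
  obtain ⟨g1, g2, _⟩ := h3 c M hc
  have hq4 : 0 < q ^ 4 := by positivity
  have hline' := hline h3 c M τ hc hτ
  have him : ∀ (t y : ℝ), ((t : ℂ) + y * I).im = y := fun t y => by simp
  have hre : ∀ (t y : ℝ), ((t : ℂ) + y * I).re = t := fun t y => by simp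
  have hb : ∀ t : ℝ, ‖Phi c ((t : ℂ) + τ * I)‖ ≤ 2 * M / τ := fun t => by
    have := g2 ((t : ℂ) + τ * I) (by rw [him]; exact hτ) (by rw [him]; exact hτ1)
    rwa [him] at this
  have hKK : ∀ w : ℂ, w.re ∈ [[x₁, x₂]] → DifferentiableAt ℂ (KK x₁ x₂ q) w := fun w hw => by
    rw [uIcc_of_le hx] at hw
    exact (KK_facts hq hw.1 hw.2).2.1
  -- the rectangle
  have hrect := Complex.integral_boundary_rect_eq_zero_of_continuousOn_of_differentiableOn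
    (fun w => KK x₁ x₂ q w * F w) ((x₁ : ℂ)) ((x₂ : ℂ) + τ * I)
    (by
      rw [him, hre, Complex.ofReal_im, Complex.ofReal_re]
      exact ContinuousOn.mul (fun w hw => (hKK w hw.1).continuousAt.continuousWithinAt) hFc)
    (by
      rw [him, hre, Complex.ofReal_im, Complex.ofReal_re, min_eq_left hx, max_eq_right hx,
        min_eq_left hτ.le, max_eq_right hτ.le]
      refine DifferentiableOn.mul (fun w hw => ?_) ?_
      · exact (hKK w (by rw [uIcc_of_le hx]; exact ⟨hw.1.1.le, hw.1.2.le⟩)).differentiableWithinAt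
      · refine (g1.mono fun w hw => hw.2.1).congr fun w hw => hF w hw.2.1)
  simp only [him, hre, Complex.ofReal_im, Complex.ofReal_re, Complex.ofReal_zero, zero_mul,
    add_zero] at hrect
  -- the vertical sides
  have hv1 : ‖∫ y : ℝ in (0 : ℝ)..τ, KK x₁ x₂ q ((x₁ : ℂ) + y * I) * F ((x₁ : ℂ) + y * I)‖ ≤
      17 * M * τ := by
    have : ∀ y ∈ Ι (0 : ℝ) τ, ‖KK x₁ x₂ q ((x₁ : ℂ) + y * I) * F ((x₁ : ℂ) + y * I)‖ ≤ 17 * M := by
      intro y hy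
      rw [uIoc_of_le hτ.le] at hy
      have hy1 : y ≤ 1 := hy.2.trans hτ1
      have hk := KK_facts (x₁ := x₁) (x₂ := x₂) hq (w := (x₁ : ℂ) + y * I) (by rw [hre])
        (by rw [hre]; exact hx)
      rw [hF _ (by rw [him]; exact hy.1)]
      refine vert h1 h3 c M e₁ x₁ q y hc w1 hq ?_ hy.1 hy1 _ hk.1 ?_
      · rw [hx₁, add_sub_cancel_left, abs_of_pos hq4]
      · have := hk.2.2.2.1 (hre _ _)
        rwa [him, abs_of_pos hy.1] at this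
    have := intervalIntegral.norm_integral_le_of_norm_le_const this
    rwa [sub_zero, abs_of_pos hτ] at this
  have hv2 : ‖∫ y : ℝ in (0 : ℝ)..τ, KK x₁ x₂ q ((x₂ : ℂ) + y * I) * F ((x₂ : ℂ) + y * I)‖ ≤
      17 * M * τ := by
    have : ∀ y ∈ Ι (0 : ℝ) τ, ‖KK x₁ x₂ q ((x₂ : ℂ) + y * I) * F ((x₂ : ℂ) + y * I)‖ ≤ 17 * M := by
      intro y hy
      rw [uIoc_of_le hτ.le] at hy
      have hy1 : y ≤ 1 := hy.2.trans hτ1
      have hk := KK_facts (x₁ := x₁) (x₂ := x₂) hq (w := (x₂ : ℂ) + y * I)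
        (by rw [hre]; exact hx) (by rw [hre])
      rw [hF _ (by rw [him]; exact hy.1)]
      refine vert h1 h3 c M e₂ x₂ q y hc w2 hq ?_ hy.1 hy1 _ hk.1 ?_
      · rw [hx₂, sub_sub_cancel_left, abs_neg, abs_of_pos hq4]
      · have := hk.2.2.2.2 (hre _ _)
        rwa [him, abs_of_pos hy.1] at this
    have := intervalIntegral.norm_integral_le_of_norm_le_const this
    rwa [sub_zero, abs_of_pos hτ] at this
  -- the top side
  have hFtop : ∀ t : ℝ, F ((t : ℂ) + τ * I) = Phi c ((t : ℂ) + τ * I) := fun t =>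
    hF _ (by rw [him]; exact hτ)
  have hKline : ContinuousOn (fun t : ℝ => KK x₁ x₂ q ((t : ℂ) + τ * I)) [[x₁, x₂]] := by
    intro t ht
    have h5 : ContinuousAt (KK x₁ x₂ q) ((t : ℂ) + τ * I) :=
      (hKK _ (by rw [hre]; exact ht)).continuousAt
    exact (ContinuousAt.comp (f := fun t : ℝ => (t : ℂ) + τ * I) h5
      (by fun_prop)).continuousWithinAt
  have i1 : IntervalIntegrable (fun t : ℝ => Phi c ((t : ℂ) + τ * I)) volume x₁ x₂ :=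
    hline'.intervalIntegrable _ _
  have i2 : IntervalIntegrable (fun t : ℝ => KK x₁ x₂ q ((t : ℂ) + τ * I) * F ((t : ℂ) + τ * I))
      volume x₁ x₂ := by
    apply ContinuousOn.intervalIntegrable
    simp_rw [hFtop]
    exact hKline.mul hline'.continuousOn
  have htop : ‖(∫ t in x₁..x₂, Phi c ((t : ℂ) + τ * I)) -
      ∫ t in x₁..x₂, KK x₁ x₂ q ((t : ℂ) + τ * I) * F ((t : ℂ) + τ * I)‖ ≤
        4 * q / τ * (2 * M / τ) * (e₂ - e₁) := by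
    rw [← intervalIntegral.integral_sub i1 i2]
    have : ∀ t ∈ Ι x₁ x₂, ‖Phi c ((t : ℂ) + τ * I) -
        KK x₁ x₂ q ((t : ℂ) + τ * I) * F ((t : ℂ) + τ * I)‖ ≤ 4 * q / τ * (2 * M / τ) := by
      intro t ht
      rw [uIoc_of_le hx] at ht
      have hk := KK_facts (x₁ := x₁) (x₂ := x₂) hq (w := (t : ℂ) + τ * I)
        (by rw [hre]; exact ht.1.le) (by rw [hre]; exact ht.2)
      rw [hFtop]
      have e : Phi c ((t : ℂ) + τ * I) - KK x₁ x₂ q ((t : ℂ) + τ * I) * Phi c ((t : ℂ) + τ * I) =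
          (1 - KK x₁ x₂ q ((t : ℂ) + τ * I)) * Phi c ((t : ℂ) + τ * I) := by ring
      rw [e, norm_mul]
      exact mul_le_mul (hk.2.2.1 τ hτ (by rw [him]; exact le_abs_self _)) (hb t) (norm_nonneg _)
        (by positivity)
    refine (intervalIntegral.norm_integral_le_of_norm_le_const this).trans ?_
    rw [abs_of_nonneg (by linarith)]
    apply mul_le_mul_of_nonneg_left _ (by positivity)
    linarith
  -- the end pieces
  have j1 : ‖∫ t in e₁..x₁, Phi c ((t : ℂ) + τ * I)‖ ≤ 2 * M / τ * q ^ 4 := by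
    refine (intervalIntegral.norm_integral_le_of_norm_le_const (fun t _ => hb t)).trans ?_
    rw [hx₁, add_sub_cancel_left, abs_of_pos hq4]
  have j2 : ‖∫ t in x₂..e₂, Phi c ((t : ℂ) + τ * I)‖ ≤ 2 * M / τ * q ^ 4 := by
    refine (intervalIntegral.norm_integral_le_of_norm_le_const (fun t _ => hb t)).trans ?_
    rw [hx₂, sub_sub_cancel, abs_of_pos hq4]
  have hsplit : (∫ t in e₁..e₂, Phi c ((t : ℂ) + τ * I)) =
      (∫ t in e₁..x₁, Phi c ((t : ℂ) + τ * I)) + (∫ t in x₁..x₂, Phi c ((t : ℂ) + τ * I)) +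
        ∫ t in x₂..e₂, Phi c ((t : ℂ) + τ * I) := by
    rw [intervalIntegral.integral_add_adjacent_intervals (hline'.intervalIntegrable _ _)
      (hline'.intervalIntegrable _ _), intervalIntegral.integral_add_adjacent_intervals
      (hline'.intervalIntegrable _ _) (hline'.intervalIntegrable _ _)]
  rw [hsplit]
  obtain ⟨P1, hP1⟩ : ∃ P, P = ∫ t in e₁..x₁, Phi c ((t : ℂ) + τ * I) := ⟨_, rfl⟩
  obtain ⟨P2, hP2⟩ : ∃ P, P = ∫ t in x₁..x₂, Phi c ((t : ℂ) + τ * I) := ⟨_, rfl⟩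
  obtain ⟨P3, hP3⟩ : ∃ P, P = ∫ t in x₂..e₂, Phi c ((t : ℂ) + τ * I) := ⟨_, rfl⟩
  obtain ⟨Q1, hQ1⟩ : ∃ P, P = ∫ t in x₁..x₂, KK x₁ x₂ q ((t : ℂ) + τ * I) * F ((t : ℂ) + τ * I) :=
    ⟨_, rfl⟩
  obtain ⟨Q0, hQ0⟩ : ∃ P, P = ∫ θ in x₁..x₂, KK x₁ x₂ q θ * F θ := ⟨_, rfl⟩
  obtain ⟨V1, hV1⟩ : ∃ P, P = ∫ y : ℝ in (0 : ℝ)..τ,
    KK x₁ x₂ q ((x₁ : ℂ) + y * I) * F ((x₁ : ℂ) + y * I) := ⟨_, rfl⟩
  obtain ⟨V2, hV2⟩ : ∃ P, P = ∫ y : ℝ in (0 : ℝ)..τ,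
    KK x₁ x₂ q ((x₂ : ℂ) + y * I) * F ((x₂ : ℂ) + y * I) := ⟨_, rfl⟩
  rw [← hP1, ← hP2, ← hP3, ← hQ0]
  rw [← hP1] at j1
  rw [← hP3] at j2
  rw [← hP2, ← hQ1] at htop
  rw [← hV1] at hv1
  rw [← hV2] at hv2
  rw [← hQ0, ← hQ1, ← hV1, ← hV2, smul_eq_mul, smul_eq_mul] at hrect
  have e : P1 + P2 + P3 - Q0 = P1 + P3 + (P2 - Q1) + (I * V2 - I * V1) := by
    linear_combination (-1 : ℂ) * hrect
  rw [e]
  have n1 : ‖I * V2 - I * V1‖ ≤ 17 * M * τ + 17 * M * τ := by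
    refine (norm_sub_le _ _).trans ?_
    rw [norm_mul, norm_mul, Complex.norm_I, one_mul, one_mul]
    linarith
  calc ‖P1 + P3 + (P2 - Q1) + (I * V2 - I * V1)‖ ≤ ‖P1 + P3 + (P2 - Q1)‖ + ‖I * V2 - I * V1‖ :=
        norm_add_le _ _
    _ ≤ ‖P1‖ + ‖P3‖ + ‖P2 - Q1‖ + ‖I * V2 - I * V1‖ := by
        gcongr
        exact (norm_add_le _ _).trans (by gcongr; exact norm_add_le _ _)
    _ ≤ _ := by linarith

end Pool.Agent.E8helper22.PS
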