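import Pool.Agent.E8helper2.PS.Stm

set_option autoImplicit false
open MeasureTheory Filter Topology Complex
namespace Pool.Agent.E8helper22.PS
open Pool.Agent.E8helper2.PS

/-- the kernel -/
noncomputable def kk (x₁ x₂ q : ℝ) (w : ℂ) : ℂ :=
  ((w - x₁) / (w - x₁ + q)) * ((x₂ - w) / (x₂ - w + q))

/-- the square of the kernel -/
noncomputable def KK (x₁ x₂ q : ℝ) (w : ℂ) : ℂ := kk x₁ x₂ q w ^ 2

theorem norm_le_add {z : ℂ} {q : ℝ} (hz : 0 ≤ z.re) (hq : 0 ≤ q) : ‖z‖ ≤ ‖z + q‖ := by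
  rw [← sq_le_sq₀ (norm_nonneg _) (norm_nonneg _), Complex.sq_norm, Complex.sq_norm,
    Complex.normSq_apply, Complex.normSq_apply]
  simp only [Complex.add_re, Complex.add_im, Complex.ofReal_re, Complex.ofReal_im, add_zero]
  nlinarith

theorem frac {z : ℂ} {q : ℝ} (hz : 0 ≤ z.re) (hq : 0 < q) :
    z + q ≠ 0 ∧ ‖z / (z + q)‖ ≤ 1 ∧ ‖z / (z + q)‖ ≤ ‖z‖ / q ∧
      ∀ τ : ℝ, 0 < τ → τ ≤ |z.im| → ‖1 - z / (z + q)‖ ≤ q / τ := by
  have h0 : z + q ≠ 0 := by
    intro h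
    have := congrArg Complex.re h
    simp at this
    linarith
  have h1 : q ≤ ‖z + q‖ := by
    have := Complex.abs_re_le_norm (z + q)
    have h2 := le_abs_self (z + q).re
    simp only [Complex.add_re, Complex.ofReal_re] at this h2
    linarith
  have h2 := norm_le_add hz hq.le
  have h3 : 0 < ‖z + q‖ := norm_pos_iff.2 h0
  refine ⟨h0, ?_, ?_, fun τ hτ hτz => ?_⟩
  · rw [norm_div, div_le_one h3]
    exact h2
  · rw [norm_div]
    exact div_le_div_of_nonneg_left (norm_nonneg _) hq h1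
  · have : 1 - z / (z + q) = q / (z + q) := by
      field_simp
      ring
    rw [this, norm_div, Complex.norm_real, Real.norm_of_nonneg hq.le]
    apply div_le_div_of_nonneg_left hq.le hτ
    have h4 := Complex.abs_im_le_norm (z + q)
    simp only [Complex.add_im, Complex.ofReal_im, add_zero] at h4
    linarith

theorem KK_facts {x₁ x₂ q : ℝ} (hq : 0 < q) {w : ℂ} (h1 : x₁ ≤ w.re) (h2 : w.re ≤ x₂) :
    ‖KK x₁ x₂ q w‖ ≤ 1 ∧ DifferentiableAt ℂ (KK x₁ x₂ q) w ∧
      (∀ τ : ℝ, 0 < τ → τ ≤ |w.im| → ‖1 - KK x₁ x₂ q w‖ ≤ 4 * q / τ) ∧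
      (w.re = x₁ → ‖KK x₁ x₂ q w‖ ≤ (|w.im| / q) ^ 2) ∧
      (w.re = x₂ → ‖KK x₁ x₂ q w‖ ≤ (|w.im| / q) ^ 2) := by
  obtain ⟨a0, a1, a2, a3⟩ := frac (z := w - x₁) (q := q) (by simp; linarith) hq
  obtain ⟨b0, b1, b2, b3⟩ := frac (z := x₂ - w) (q := q) (by simp; linarith) hq
  have hk : ‖kk x₁ x₂ q w‖ ≤ 1 := by
    unfold kk
    rw [norm_mul]
    exact mul_le_one₀ a1 (norm_nonneg _) b1
  refine ⟨?_, ?_, ?_, ?_, ?_⟩
  · unfold KK
    rw [norm_pow]
    exact pow_le_one₀ (norm_nonneg _) hk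
  · unfold KK kk
    have d1 : DifferentiableAt ℂ (fun w : ℂ => (w - x₁) / (w - x₁ + q)) w :=
      (differentiableAt_id.sub_const _).div ((differentiableAt_id.sub_const _).add_const _) a0
    have d2 : DifferentiableAt ℂ (fun w : ℂ => (x₂ - w) / (x₂ - w + q)) w :=
      (differentiableAt_id.const_sub _).div ((differentiableAt_id.const_sub _).add_const _) b0
    exact (d1.mul d2).pow 2
  · intro τ hτ hw
    have c1 := a3 τ hτ (by simpa using hw)
    have c2 := b3 τ hτ (by simpa using hw)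
    have e1 : 1 - KK x₁ x₂ q w = (1 - kk x₁ x₂ q w) * (1 + kk x₁ x₂ q w) := by
      unfold KK
      ring
    have e2 : 1 - kk x₁ x₂ q w = (1 - (w - x₁) / (w - x₁ + q)) +
        ((w - x₁) / (w - x₁ + q)) * (1 - (x₂ - w) / (x₂ - w + q)) := by
      unfold kk
      ring
    have e3 : ‖1 - kk x₁ x₂ q w‖ ≤ 2 * (q / τ) := by
      rw [e2]
      refine (norm_add_le _ _).trans ?_
      rw [norm_mul]
      have : ‖(w - x₁) / (w - x₁ + q)‖ * ‖1 - (x₂ - w) / (x₂ - w + q)‖ ≤ 1 * (q / τ) :=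
        mul_le_mul a1 c2 (norm_nonneg _) zero_le_one
      linarith
    have e4 : ‖1 + kk x₁ x₂ q w‖ ≤ 2 := by
      refine (norm_add_le _ _).trans ?_
      rw [norm_one]
      linarith
    rw [e1, norm_mul]
    have hqτ : 0 ≤ q / τ := by positivity
    calc ‖1 - kk x₁ x₂ q w‖ * ‖1 + kk x₁ x₂ q w‖ ≤ 2 * (q / τ) * 2 :=
          mul_le_mul e3 e4 (norm_nonneg _) (by positivity)
      _ = 4 * q / τ := by ring
  · intro hw
    have hz : ‖w - x₁‖ = |w.im| := by
      have : w - x₁ = (w.im : ℂ) * Complex.I := by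
        apply Complex.ext <;> simp [hw]
      rw [this, norm_mul, Complex.norm_I, mul_one, Complex.norm_real, Real.norm_eq_abs]
    unfold KK
    rw [norm_pow]
    apply pow_le_pow_left₀ (norm_nonneg _)
    unfold kk
    rw [norm_mul, ← hz]
    calc ‖(w - x₁) / (w - x₁ + q)‖ * ‖(x₂ - w) / (x₂ - w + q)‖ ≤ ‖w - x₁‖ / q * 1 :=
          mul_le_mul a2 b1 (norm_nonneg _) (by positivity)
      _ = _ := mul_one _
  · intro hw
    have hz : ‖x₂ - w‖ = |w.im| := by
      have : x₂ - w = -((w.im : ℂ) * Complex.I) := by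
        apply Complex.ext <;> simp [hw]
      rw [this, norm_neg, norm_mul, Complex.norm_I, mul_one, Complex.norm_real, Real.norm_eq_abs]
    unfold KK
    rw [norm_pow]
    apply pow_le_pow_left₀ (norm_nonneg _)
    unfold kk
    rw [norm_mul, ← hz]
    calc ‖(w - x₁) / (w - x₁ + q)‖ * ‖(x₂ - w) / (x₂ - w + q)‖ ≤ 1 * (‖x₂ - w‖ / q) :=
          mul_le_mul a1 b2 (norm_nonneg _) zero_le_one
      _ = _ := one_mul _

theorem convex_line (y : ℝ) : Convex ℝ {w : ℂ | w.im = y} := by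
  intro a ha b hb p r _ _ hpr
  have ha' : a.im = y := ha
  have hb' : b.im = y := hb
  show (p • a + r • b).im = y
  rw [Complex.add_im, Complex.smul_im, Complex.smul_im, ha', hb', smul_eq_mul, smul_eq_mul,
    ← add_mul, hpr, one_mul]

/-- the bound on the vertical sides -/
theorem vert (h1 : S_ABEL) (h3 : S_CONT) (c : ℕ → ℂ) (M e x q y : ℝ) (hc : ∀ n, ‖c n‖ ≤ M)
    (w1 : Win c M e) (hq : 0 < q) (hx : |x - e| = q ^ 4) (hy : 0 < y) (hy1 : y ≤ 1) (K : ℂ)
    (hK1 : ‖K‖ ≤ 1) (hK2 : ‖K‖ ≤ (y / q) ^ 2) :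
    ‖K * Phi c ((x : ℂ) + y * I)‖ ≤ 17 * M := by
  have hM : 0 ≤ M := (norm_nonneg _).trans (hc 0)
  obtain ⟨g1, g2, g3⟩ := h3 c M hc
  have him : ∀ t : ℝ, ((t : ℂ) + y * I).im = y := fun t => by simp
  rw [norm_mul]
  rcases le_or_gt (q ^ 2) y with h | h
  · have a1 := h1 c M e y w1 hy
    have a2 : ‖Phi c ((x : ℂ) + y * I) - Phi c ((e : ℂ) + y * I)‖ ≤
        16 * M / y ^ 2 * ‖((x : ℂ) + y * I) - ((e : ℂ) + y * I)‖ := by
      refine Convex.norm_image_sub_le_of_norm_deriv_le (𝕜 := ℂ) (s := {w : ℂ | w.im = y})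
        (fun w hw => ?_) (fun w hw => ?_) (convex_line y) (him e) (him x)
      · have hw' : w.im = y := hw
        have : {w : ℂ | 0 < w.im} ∈ 𝓝 w :=
          (isOpen_lt continuous_const Complex.continuous_im).mem_nhds (by
            show 0 < w.im
            rw [hw']
            exact hy)
        exact g1.differentiableAt this
      · have hw' : w.im = y := hw
        have := g3 w (by rw [hw']; exact hy) (by rw [hw']; exact hy1)
        rwa [hw'] at this
    have a3 : ‖((x : ℂ) + y * I) - ((e : ℂ) + y * I)‖ = q ^ 4 := by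
      have : ((x : ℂ) + y * I) - ((e : ℂ) + y * I) = ((x - e : ℝ) : ℂ) := by
        push_cast
        ring
      rw [this, Complex.norm_real, Real.norm_eq_abs, hx]
    rw [a3] at a2
    have a4 : 16 * M / y ^ 2 * q ^ 4 ≤ 16 * M := by
      rw [div_mul_eq_mul_div, div_le_iff₀ (by positivity)]
      have : q ^ 4 ≤ y ^ 2 := by
        have : (q ^ 2) ^ 2 ≤ y ^ 2 := pow_le_pow_left₀ (by positivity) h 2
        calc q ^ 4 = (q ^ 2) ^ 2 := by ring
          _ ≤ _ := this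
      gcongr
    have a5 : ‖Phi c ((x : ℂ) + y * I)‖ ≤ 17 * M := by
      have : Phi c ((x : ℂ) + y * I) =
          (Phi c ((x : ℂ) + y * I) - Phi c ((e : ℂ) + y * I)) + Phi c ((e : ℂ) + y * I) := by ring
      rw [this]
      refine (norm_add_le _ _).trans ?_
      linarith
    calc ‖K‖ * ‖Phi c ((x : ℂ) + y * I)‖ ≤ 1 * (17 * M) :=
          mul_le_mul hK1 a5 (norm_nonneg _) zero_le_one
      _ = 17 * M := one_mul _
  · have a1 := g2 ((x : ℂ) + y * I) (by rw [him]; exact hy) (by rw [him]; exact hy1)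
    rw [him] at a1
    calc ‖K‖ * ‖Phi c ((x : ℂ) + y * I)‖ ≤ (y / q) ^ 2 * (2 * M / y) :=
          mul_le_mul hK2 a1 (norm_nonneg _) (by positivity)
      _ = 2 * M * (y / q ^ 2) := by
          field_simp
      _ ≤ 2 * M * 1 := by
          apply mul_le_mul_of_nonneg_left _ (by positivity)
          rw [div_le_one (by positivity)]
          exact h.le
      _ ≤ 17 * M := by linarith

end Pool.Agent.E8helper22.PS
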